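import Mathlib
import Pool.Agent.Work.MP_366529_co.Geometry

/-!
Rotor flipping can change the chromatic polynomial of a planar graph (a question of Read and
Tutte, 1988).

The rotor `R` has order 6 and 24 vertices `v i, a i, b i, c i` (indices modulo 6), with edges
`b i b (i+1)`, `a i b i`, `a i b (i-1)`, `a i c i`, `a i v (i+1)`, `c i v i`, `c i v (i+1)`.
A 3-colouring of the attachments extends to `R` if and only if there is a proper 3-colouring of
the hexagon `b` such that, `a i` being the third colour of `b (i-1)` and `b i`, for all `i` the
colour of `v (i+1)` is not `a i`, and the colour of `v i` is `a i` or that of `v (i+1)`.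
The rest of `G` forces `v 1` and `v 5` to have the same colour, different from the colours of
`v 0` and `v 2`; then `a 5 = v 5`, `a 0 = v 0`, `a 1 = v 1`, which is impossible. After the flip
the corresponding system can be solved.
-/

namespace Pool.Agent.Results.MP_366529_co.RotorFlip

open Pool.Agent.Work.MP_366529_co

/-- There are a finite plane graph `G` and a rotor `R` of `G` (of order 6) such that `G` has no
proper 3-colouring while the graph obtained by flipping `R` has one; so the two chromatic
polynomials differ at 3. -/
theorem result : ∃ (V : Type) (_ : Fintype V) (G : SimpleGraph V) (p : V → ℂ) (R : G.Subgraph)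
    (v : ZMod 6 → V), IsRotor G p R v ∧
      Nat.card (G.Coloring (Fin 3)) = 0 ∧ 0 < Nat.card ((flip G R v).Coloring (Fin 3)) :=
  ⟨Fin 30, inferInstance, G, p, R, att, isRotor, card_eq_zero, card_pos⟩

end Pool.Agent.Results.MP_366529_co.RotorFlip
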